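import Pool.Agent.H84.SF.Fin
import Pool.Agent.H13.SL.GNA
import Pool.Agent.H91.SFD.Lem

/-!
# MP_70ba79_ag, board sfc_modules: row GNZ (divisibility of the determinant of a family of curves
at a point of the curve `G = 0`)
-/

set_option autoImplicit false

namespace Pool.Agent.H2.SF

open MvPolynomial SC
open Pool.Agent.H84.SF
open Pool.Agent.H84.SM (cr dt dp)
open Pool.Agent.H84.SL (pd)
open Pool.Agent.H3.SF (Itg Bb BB Hm eu grd hes Sfc Crd Crf Prm)
open Pool.Agent.H17.SD (Prj Smo HRel)

section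

variable {k M : Type} [Field k] [Field M] [Algebra k M]

/-- the coefficientwise derivation -/
theorem exists_cw (Δ : Derivation k M M) :
    ∃ D : Derivation k (Polynomial M) (Polynomial M), ∀ p i, (D p).coeff i = Δ (p.coeff i) :=
  ⟨PolynomialModule.equivPolynomialSelf.toLinearMap.compDer Δ.mapCoeffs, fun _ _ => rfl⟩

/-- the linear algebra at the end -/
theorem key (Q q w g : Fin 3 → Polynomial M) (j : Polynomial M) (a n : ℕ)
    (e1 : Polynomial.X ^ a ∣ ∑ i, g i * Q i) (e2 : Polynomial.X ^ a ∣ ∑ i, g i * q i)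
    (e3 : Polynomial.X ^ a ∣ ∑ i, g i * w i) (i0 : Fin 3)
    (hc : ∃ e : Fin 3 → Polynomial M, j * Q i0 ^ n = ∑ l, e l * g l)
    (h0 : ¬ Polynomial.X ∣ Q i0) : Polynomial.X ^ a ∣ j * dt Q q w := by
  have hl : ∀ l, Polynomial.X ^ a ∣ g l * dt Q q w := by
    intro l
    rw [Pool.Agent.H13.SL.det_id]
    exact dvd_add (dvd_add (e1.mul_right _) (e2.mul_right _)) (e3.mul_right _)
  obtain ⟨e, he⟩ := hc
  have h1 : Q i0 ^ n * (j * dt Q q w) = ∑ l, e l * (g l * dt Q q w) := by
    have : ∑ l, e l * (g l * dt Q q w) = (∑ l, e l * g l) * dt Q q w := by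
      rw [Finset.sum_mul]
      exact Finset.sum_congr rfl fun l _ => by ring
    rw [this, ← he]
    ring
  have h2 : ¬ Polynomial.X ∣ Q i0 ^ n := fun h => h0 (Polynomial.prime_X.dvd_of_dvd_pow h)
  refine Polynomial.prime_X.pow_dvd_of_dvd_mul_left a h2 ?_
  rw [h1]
  exact Finset.dvd_sum fun l _ => Dvd.dvd.mul_left (hl l) _

end

/-- values of the integral elements are polynomials -/
theorem int_val {k F M K : Type} [Field k] [Field F] [Algebra k F] [Field M] [Algebra k M]
    [Field K] [Algebra (Polynomial M) K] [IsFractionRing (Polynomial M) K] [Algebra k K]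
    [IsScalarTower k (Polynomial M) K] (u : Fin 3 → F) (φ : Bb k u →ₐ[k] K)
    (uB : Fin 3 → Bb k u) (huB : ∀ l, (uB l : F) = u l) (Q : Fin 3 → Polynomial M)
    (hQ : ∀ l, φ (uB l) = algebraMap (Polynomial M) K (Q l)) (b : Bb k u) :
    ∃ p : Polynomial M, algebraMap (Polynomial M) K p = φ b := by
  obtain ⟨p, hp, hp0⟩ := b.2
  have h1 : ∀ f : MvPolynomial (Fin 3) k, ((aeval uB f : Bb k u) : F) = aeval u f := by
    intro f
    have := comp_aeval_apply (f := uB) (Bb k u).val f
    rw [Subalgebra.coe_val] at this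
    rw [this]
    congr 2
    funext l
    exact huB l
  have h2 : Polynomial.eval₂ ((aeval uB : MvPolynomial (Fin 3) k →ₐ[k] Bb k u) :
      MvPolynomial (Fin 3) k →+* Bb k u) b p = 0 := by
    apply Subtype.ext
    have h3 := Polynomial.hom_eval₂ p ((aeval uB : MvPolynomial (Fin 3) k →ₐ[k] Bb k u) :
      MvPolynomial (Fin 3) k →+* Bb k u) ((Bb k u).val : Bb k u →+* F) b
    have h4 : ((Bb k u).val : Bb k u →+* F).comp
        ((aeval uB : MvPolynomial (Fin 3) k →ₐ[k] Bb k u) :
          MvPolynomial (Fin 3) k →+* Bb k u) =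
        ((aeval u : MvPolynomial (Fin 3) k →ₐ[k] F) : MvPolynomial (Fin 3) k →+* F) :=
      RingHom.ext fun f => h1 f
    rw [h4] at h3
    exact h3.trans hp0
  have h3 := Polynomial.hom_eval₂ p ((aeval uB : MvPolynomial (Fin 3) k →ₐ[k] Bb k u) :
      MvPolynomial (Fin 3) k →+* Bb k u) (φ : Bb k u →+* K) b
  have h4 : (φ : Bb k u →+* K).comp ((aeval uB : MvPolynomial (Fin 3) k →ₐ[k] Bb k u) :
      MvPolynomial (Fin 3) k →+* Bb k u) = (algebraMap (Polynomial M) K).comp
      ((aeval Q : MvPolynomial (Fin 3) k →ₐ[k] Polynomial M) :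
        MvPolynomial (Fin 3) k →+* Polynomial M) := by
    refine RingHom.ext fun f => ?_
    have a1 := comp_aeval_apply (f := uB) φ f
    have a2 := comp_aeval_apply (f := Q) (IsScalarTower.toAlgHom k (Polynomial M) K) f
    have a3 : (fun l => φ (uB l)) = fun l => (IsScalarTower.toAlgHom k (Polynomial M) K) (Q l) :=
      funext hQ
    rw [a3] at a1
    exact a1.trans a2.symm
  rw [h2, h4, map_zero, ← Polynomial.eval₂_map] at h3
  have h5 : IsIntegral (Polynomial M) (φ b) := ⟨p.map _, hp.map _, h3.symm⟩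
  exact IsIntegrallyClosed.isIntegral_iff.1 h5

/-- the projection of the point of the curve at `T = 0` is not zero -/
theorem proj_ne {k F σ L : Type} [Field k] [CharZero k] [Field F] [Algebra k F] [Fintype σ]
    [Field L] [Algebra k L] (hHIE : T_HIE) (X : σ → F) (u : Fin 3 → F)
    (dd : Fin 3 → Derivation k F F) (hdu : ∀ l j, dd l (u j) = if l = j then 1 else 0)
    (hXi : ∀ s, Itg k u (X s)) (hXe : ∀ s, eu u dd (X s) = X s) (c : Fin 3 → σ → k)
    (hc : ∀ l, u l = ∑ s, c l s • X s) (P : σ → Polynomial L)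
    (hP0 : ∃ i, (P i).coeff 0 ≠ 0)
    (hP : ∀ f : MvPolynomial σ k, aeval X f = 0 → aeval P f = 0) :
    ∃ l, ¬ Polynomial.X ∣ lin c P l := by
  by_contra hcon
  push Not at hcon
  obtain ⟨s, hs⟩ := hP0
  obtain ⟨N, cc, hcc, hrel⟩ := hHIE k F u dd hdu (X s) 1 (hXi s) (by
    unfold Hm
    rw [hXe s]
    simp)
  let ul : Fin 3 → MvPolynomial σ k := lin c (MvPolynomial.X : σ → MvPolynomial σ k)
  have e1 : ∀ l, aeval X (ul l) = u l := by
    intro l
    simp only [ul, lin, map_sum, map_smul, aeval_X]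
    exact (hc l).symm
  have e2 : ∀ l, aeval P (ul l) = lin c P l := by
    intro l
    simp only [ul, lin, map_sum, map_smul, aeval_X]
  have h1 := hP (MvPolynomial.X s ^ N + ∑ i, aeval ul (cc i) * MvPolynomial.X s ^ (i : ℕ)) (by
    rw [map_add, map_pow, aeval_X, map_sum, ← hrel]
    congr 1
    refine Finset.sum_congr rfl fun i _ => ?_
    rw [map_mul, map_pow, aeval_X, comp_aeval_apply]
    congr 3
    funext l
    exact e1 l)
  rw [map_add, map_pow, aeval_X, map_sum] at h1
  have h2 : ∀ i : Fin N, Polynomial.X ∣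
      aeval P (aeval ul (cc i) * MvPolynomial.X s ^ (i : ℕ)) := by
    intro i
    rw [map_mul, comp_aeval_apply]
    refine Dvd.dvd.mul_right ?_ _
    have e3 : (fun l => aeval P (ul l)) = fun l => lin c P l := funext e2
    rw [e3, aeval_def, eval₂_eq]
    refine Finset.dvd_sum fun d hd => Dvd.dvd.mul_left ?_ _
    have h3 : ∑ i ∈ d.support, d i = (N - (i : ℕ)) * 1 := by
      have h := hcc i (mem_support_iff.1 hd)
      rw [Finsupp.weight_apply, Finsupp.sum] at h
      simpa using h
    have h4 : ∃ l ∈ d.support, d l ≠ 0 := by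
      by_contra h5
      push Not at h5
      rw [Finset.sum_eq_zero h5] at h3
      have := i.2
      omega
    obtain ⟨l, hl, hl0⟩ := h4
    exact ((hcon l).trans (dvd_pow_self _ hl0)).trans (Finset.dvd_prod_of_mem _ hl)
  have h3 : Polynomial.X ∣ P s ^ N := by
    have h4 : Polynomial.X ∣ ∑ i : Fin N, aeval P (aeval ul (cc i) * MvPolynomial.X s ^ (i : ℕ)) :=
      Finset.dvd_sum fun i _ => h2 i
    have h5 := (dvd_add_left h4).1 (h1 ▸ dvd_zero _)
    exact h5
  have h4 := Polynomial.prime_X.dvd_of_dvd_pow h3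
  rw [Polynomial.X_dvd_iff] at h4
  exact hs h4

theorem pf_GNZ (hPHI : Pool.Agent.H17.SD.T_PHI) (hHIE : T_HIE) : T_GNZ := by
  intro k F σ _ _ _ _ _ _ X u θ dd J δ j0 c0 c hS m GP hm hG L M _ _ _ _ _ _ Δ P c1 a hc1 hP0 hP
    hGP
  obtain ⟨mp, hmp⟩ : ∃ mp : Polynomial L →ₐ[k] Polynomial M,
      ∀ A, mp A = A.map (algebraMap L M) :=
    ⟨Polynomial.mapAlgHom (IsScalarTower.toAlgHom k L M), fun A => rfl⟩
  let K : Type := FractionRing (Polynomial M)
  let ψ : Polynomial M →ₐ[k] K := IsScalarTower.toAlgHom k (Polynomial M) K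
  have hψ : ∀ A, ψ A = algebraMap (Polynomial M) K A := fun A => rfl
  have hinj : Function.Injective ψ := IsFractionRing.injective (Polynomial M) K
  obtain ⟨Q, hQ⟩ : ∃ Q : Fin 3 → Polynomial M, ∀ l, Q l = mp (lin c P l) := ⟨_, fun _ => rfl⟩
  obtain ⟨z, hz⟩ : ∃ z : σ → K, ∀ s, z s = ψ (mp (P s)) := ⟨_, fun _ => rfl⟩
  have hzf : ∀ f : MvPolynomial σ k, aeval z f = ψ (mp (aeval P f)) := by
    intro f
    have a1 := comp_aeval_apply (f := P) (ψ.comp mp) f
    have a2 : z = fun s => (ψ.comp mp) (P s) := funext hz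
    rw [a2, ← a1]
    rfl
  have hzl : ∀ l, ∑ s, c l s • z s = ψ (Q l) := by
    intro l
    rw [hQ]
    simp only [lin, map_sum, map_smul, hz]
  have hlJ : ∀ f : MvPolynomial (Fin 3) k, aeval (fun l => ∑ s, c l s • z s) f = ψ (aeval Q f) := by
    intro f
    have a1 := comp_aeval_apply (f := Q) ψ f
    rw [a1]
    congr 2
    funext l
    exact hzl l
  have hQf : ∀ f : MvPolynomial (Fin 3) k, mp (aeval (lin c P) f) = aeval Q f := by
    intro f
    have a1 := comp_aeval_apply (f := lin c P) mp f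
    rw [a1]
    congr 2
    funext l
    exact (hQ l).symm
  obtain ⟨jQ, hjQ⟩ : ∃ jQ : Polynomial M, jQ = aeval Q J := ⟨_, rfl⟩
  have hgoal : ∀ q : Fin 3 → Polynomial M, (∀ l, q l = pd (fun b => Δ (algebraMap L M b)) (lin c P l)) →
      ∀ w : Fin 3 → Polynomial M, (∀ l, w l = Polynomial.X * Polynomial.derivative (Q l)) →
      Polynomial.X ^ a ∣ jQ * dt Q q w := by
    intro q hq w hw
    by_cases hj0 : jQ = 0
    · rw [hj0, zero_mul]
      exact dvd_zero _
    have hJz : aeval (fun l => ∑ s, c l s • z s) J ≠ 0 := by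
      rw [hlJ, ← hjQ]
      intro h
      exact hj0 (hinj (h.trans (map_zero ψ).symm))
    obtain ⟨φ, hφ⟩ := hPHI k F σ K X u θ dd J hS.sfc.ind hS.prj z (fun f hf => by
      rw [hzf, hP f hf, map_zero, map_zero]) c hS.lin hJz
    -- the elements of the ring
    have hui : ∀ l, Itg k u (u l) := by
      intro l
      have := (Bb k u).sum_mem (t := Finset.univ) (f := fun s => c l s • X s)
        (fun s _ => (Bb k u).smul_mem (hS.prj.Xint s) _)
      rw [← hS.lin l] at this
      exact this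
    obtain ⟨XB, hXB⟩ : ∃ XB : σ → Bb k u, ∀ s, (XB s : F) = X s :=
      ⟨fun s => ⟨X s, hS.prj.Xint s⟩, fun _ => rfl⟩
    obtain ⟨uB, huB⟩ : ∃ uB : Fin 3 → Bb k u, ∀ l, (uB l : F) = u l :=
      ⟨fun l => ⟨u l, hui l⟩, fun _ => rfl⟩
    have hφX : ∀ s, φ (XB s) = z s := fun s => hφ s (XB s) (hXB s)
    have hφu : ∀ l, φ (uB l) = ψ (Q l) := by
      intro l
      have h1 : uB l = ∑ s, c l s • XB s := by
        apply Subtype.ext
        rw [huB, hS.lin l, AddSubmonoidClass.coe_finsetSum]
        refine Finset.sum_congr rfl fun s _ => ?_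
        rw [SetLike.val_smul, hXB]
      rw [h1, map_sum, ← hzl]
      refine Finset.sum_congr rfl fun s _ => ?_
      rw [map_smul, hφX]
    have hval : ∀ b : Bb k u, ∃ p : Polynomial M, ψ p = φ b :=
      int_val u φ uB huB Q hφu
    choose ρ hρ using hval
    have hρa : ∀ x y, ρ (x + y) = ρ x + ρ y := fun x y => hinj (by
      rw [hρ, map_add, map_add, hρ, hρ])
    have hρm : ∀ x y, ρ (x * y) = ρ x * ρ y := fun x y => hinj (by
      rw [hρ, map_mul, map_mul, hρ, hρ])
    have hρu : ∀ l, ρ (uB l) = Q l := fun l => hinj (by rw [hρ, hφu])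
    obtain ⟨GB, hGB⟩ : ∃ GB : Bb k u, (GB : F) = aeval X GP := ⟨⟨_, hG.crd.itg⟩, rfl⟩
    have hφG : ρ GB = mp (aeval P GP) := by
      have h1 : GB = aeval XB GP := by
        apply Subtype.ext
        have := comp_aeval_apply (f := XB) (Bb k u).val GP
        rw [Subalgebra.coe_val] at this
        rw [this, hGB]
        congr 2
        funext s
        exact (hXB s).symm
      apply hinj
      rw [hρ, h1, comp_aeval_apply, ← hzf]
      congr 2
      funext s
      exact hφX s
    obtain ⟨jB, hjB⟩ : ∃ jB : Bb k u, jB = aeval uB J := ⟨_, rfl⟩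
    have hjBF : (jB : F) = aeval u J := by
      have := comp_aeval_apply (f := uB) (Bb k u).val J
      rw [Subalgebra.coe_val, ← hjB] at this
      rw [this]
      congr 2
      funext l
      exact huB l
    have hρj : ρ jB = jQ := by
      apply hinj
      rw [hρ, hjB, comp_aeval_apply, hjQ, comp_aeval_apply]
      congr 2
      funext l
      exact hφu l
    obtain ⟨bB, hbB⟩ : ∃ bB : Fin 3 → Bb k u, ∀ l, (bB l : F) = aeval u J * dd l (aeval X GP) :=
      ⟨fun l => ⟨_, hS.sfc.Jd l _ hG.crd.itg⟩, fun _ => rfl⟩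
    have hρG : ρ GB = Polynomial.C (algebraMap L M c1) * Polynomial.X ^ a := by
      rw [hφG, hGP, hmp]
      simp
    -- chain rule
    have hchr : ∀ D : Derivation k (Polynomial M) (Polynomial M),
        jQ * D (Polynomial.C (algebraMap L M c1) * Polynomial.X ^ a) =
          ∑ l, ρ (bB l) * D (Q l) := by
      intro D
      obtain ⟨D', hD'⟩ := Pool.Agent.H91.SFD.ext_der (L := K)
        ((Algebra.linearMap (Polynomial M) K).compDer D)
      have h1 := hS.sfc.chr K φ D' GB jB bB uB hjBF (fun l => by rw [hbB, hGB]) huB (by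
        rw [← hρ, hρj]
        intro h
        exact hj0 (hinj (h.trans (map_zero ψ).symm)))
      have h2 : ∀ A : Polynomial M, D' (ψ A) = ψ (D A) := fun A => hD' A
      apply hinj
      rw [map_mul, map_sum, ← hρj, ← hρG, ← h2, hρ, hρ, h1]
      refine Finset.sum_congr rfl fun l _ => ?_
      rw [map_mul, hρ, ← h2, ← hρu, hρ]
    obtain ⟨n, hcert⟩ := hG.crd.cert
    obtain ⟨i0, hi0⟩ := proj_ne hHIE X u dd hS.sfc.du hS.prj.Xint hS.prj.Xeu c hS.lin P hP0 hP
    have hi0' : ¬ Polynomial.X ∣ Q i0 := by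
      rw [Polynomial.X_dvd_iff, hQ, hmp, Polynomial.coeff_map, map_eq_zero]
      rwa [Polynomial.X_dvd_iff] at hi0
    obtain ⟨e, he, hce⟩ := hcert i0
    refine key Q q w (fun l => ρ (bB l)) jQ a n ?_ ?_ ?_ i0 ?_ hi0'
    · have h1 : ∑ l, bB l * uB l = jB * ((m : Bb k u) * GB) := by
        apply Subtype.ext
        rw [AddSubmonoidClass.coe_finsetSum]
        have h2 : eu u dd (aeval X GP) = ((m : ℤ) : F) * aeval X GP := hG.crd.hom
        have h3 : eu u dd (aeval X GP) = ∑ l, u l * dd l (aeval X GP) := by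
          unfold eu
          rw [Fin.sum_univ_three, Fin.sum_univ_three]
          simp only [Derivation.add_apply, Derivation.smul_apply, smul_eq_mul]
        have h4 : ∀ l, ((bB l * uB l : Bb k u) : F) =
            aeval u J * (u l * dd l (aeval X GP)) := by
          intro l
          rw [MulMemClass.coe_mul, hbB, huB]
          ring
        rw [Finset.sum_congr rfl fun l _ => h4 l, ← Finset.mul_sum, ← h3, h2, MulMemClass.coe_mul,
          MulMemClass.coe_mul, hjBF, hGB]
        simp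
      have h2 : ∑ l, ρ (bB l) * Q l = jQ * ((m : Polynomial M) * ρ GB) := by
        apply hinj
        rw [map_sum, map_mul, map_mul, ← hρj, hρ, hρ, map_natCast, ← map_natCast φ, ← map_mul,
          ← map_mul, ← h1, map_sum]
        refine Finset.sum_congr rfl fun l _ => ?_
        rw [map_mul, map_mul, hρ, hφu]
      show Polynomial.X ^ a ∣ ∑ l, ρ (bB l) * Q l
      rw [h2, hρG]
      exact ⟨jQ * ((m : Polynomial M) * Polynomial.C (algebraMap L M c1)), by ring⟩
    · obtain ⟨D, hD⟩ := exists_cw Δ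
      have h1 : ∀ l, D (Q l) = q l := by
        intro l
        ext i
        rw [hD, hQ, hmp, hq, Polynomial.coeff_map, Pool.Agent.H13.SL.pd_coeff _ (by simp)]
      have h2 : D (Polynomial.C (algebraMap L M c1) * Polynomial.X ^ a) =
          Polynomial.C (Δ (algebraMap L M c1)) * Polynomial.X ^ a := by
        ext i
        rw [hD, Polynomial.coeff_C_mul_X_pow, Polynomial.coeff_C_mul_X_pow]
        split_ifs
        · rfl
        · exact map_zero Δ
      have h3 := hchr D
      rw [h2] at h3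
      show Polynomial.X ^ a ∣ ∑ l, ρ (bB l) * q l
      have h4 : ∑ l, ρ (bB l) * q l = ∑ l, ρ (bB l) * D (Q l) :=
        Finset.sum_congr rfl fun l _ => by rw [h1]
      rw [h4, ← h3]
      exact ⟨jQ * Polynomial.C (Δ (algebraMap L M c1)), by ring⟩
    · let D : Derivation k (Polynomial M) (Polynomial M) :=
        (Polynomial.X : Polynomial M) • (Polynomial.derivative' (R := M)).restrictScalars k
      have hD : ∀ A, D A = Polynomial.X * Polynomial.derivative A := fun A => rfl
      have h3 := hchr D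
      show Polynomial.X ^ a ∣ ∑ l, ρ (bB l) * w l
      have h4 : ∑ l, ρ (bB l) * w l = ∑ l, ρ (bB l) * D (Q l) :=
        Finset.sum_congr rfl fun l _ => by rw [hw, hD]
      rw [h4, ← h3, hD]
      rcases Nat.eq_zero_or_pos a with rfl | ha
      · rw [pow_zero]
        exact one_dvd _
      obtain ⟨b, rfl⟩ : ∃ b, a = b + 1 := ⟨a - 1, by omega⟩
      rw [Polynomial.derivative_C_mul_X_pow, Nat.add_sub_cancel]
      exact ⟨jQ * Polynomial.C (algebraMap L M c1 * (b + 1 : ℕ)), by ring⟩
    · obtain ⟨eB, heB⟩ : ∃ eB : Fin 3 → Bb k u, ∀ l, (eB l : F) = e l :=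
        ⟨fun l => ⟨e l, (he l).1⟩, fun _ => rfl⟩
      refine ⟨fun l => ρ (eB l), ?_⟩
      have h1 : jB * uB i0 ^ n = ∑ l, eB l * bB l := by
        apply Subtype.ext
        rw [AddSubmonoidClass.coe_finsetSum, MulMemClass.coe_mul, SubmonoidClass.coe_pow, hjBF,
          huB, hce, Finset.mul_sum]
        refine Finset.sum_congr rfl fun l _ => ?_
        rw [MulMemClass.coe_mul, heB, hbB]
        ring
      apply hinj
      rw [map_mul, map_pow, map_sum, ← hρj, hρ, ← hφu, ← map_pow, ← map_mul, h1, map_sum]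
      refine Finset.sum_congr rfl fun l _ => ?_
      rw [map_mul, map_mul, hρ, hρ]
  have hfin := hgoal (fun l => pd (fun b => Δ (algebraMap L M b)) (lin c P l)) (fun _ => rfl)
    (fun l => Polynomial.X * Polynomial.derivative (Q l)) (fun _ => rfl)
  have e1 : (fun i => (lin c P i).map (algebraMap L M)) = Q := by
    funext l
    rw [hQ, hmp]
  have e2 : (fun i => Polynomial.X * (Polynomial.derivative (lin c P i)).map (algebraMap L M)) =
      fun l => Polynomial.X * Polynomial.derivative (Q l) := by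
    funext l
    rw [hQ, hmp, Polynomial.derivative_map]
  rw [e1, e2, ← hmp, hQf, ← hjQ]
  exact hfin

end Pool.Agent.H2.SF
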